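import Pool.Agent.ISB.StmtsA

set_option autoImplicit false

/-!
# ISB, row COM: the operators of `dr A t` commute on `dr A (t+1) / dr A (t+2)`
-/

namespace Pool.Agent.ISB.H16

open scoped Classical
open Pool.Agent.ISB

theorem ln_cons {L : Type} [LieRing L] (u c : L) (cs : List L) :
    ln u (c :: cs) = ln ⁅u, c⁆ cs := rfl

theorem ln_sub {L : Type} [LieRing L] (cs : List L) : ∀ u u' : L,
    ln (u - u') cs = ln u cs - ln u' cs := by
  induction cs with
  | nil => intro u u'; rfl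
  | cons c cs ih =>
    intro u u'
    rw [ln_cons, ln_cons, ln_cons, sub_lie, ih]

theorem com (IDL : IdlStmt) (MLT : MltStmt) : ComStmt := by
  intro F L _ _ _ A hA t cs hcs
  obtain ⟨hmono, hid, -, -⟩ := IDL F L A hA
  have hAt : ∀ c ∈ dr A t, c ∈ A := fun c hc => hmono 0 t (Nat.zero_le t) hc
  have hbr : ∀ s, ∀ u ∈ dr A s, ∀ c ∈ dr A t, ⁅u, c⁆ ∈ dr A s := by
    intro s u hu c hc
    exact hid s (Submodule.subset_span ⟨u, hu, c, hAt c hc, rfl⟩)
  have hln : ∀ s, ∀ cs : List L, (∀ c ∈ cs, c ∈ dr A t) → ∀ u ∈ dr A s, ln u cs ∈ dr A s := by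
    intro s cs
    induction cs with
    | nil => intro _ u hu; exact hu
    | cons c cs ih =>
      intro h u hu
      rw [ln_cons]
      exact ih (fun d hd => h d (List.mem_cons_of_mem _ hd)) _
        (hbr s u hu c (h c List.mem_cons_self))
  refine ⟨fun u hu => hln (t + 1) cs hcs u hu, ?_, fun z hz => hln (t + 2) cs hcs z hz⟩
  intro u hu cs' hp
  induction hp generalizing u with
  | nil => rw [sub_self]; exact Submodule.zero_mem _
  | cons x p ih =>
    rw [ln_cons, ln_cons]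
    exact ih (fun d hd => hcs d (List.mem_cons_of_mem _ hd)) _
      (hbr (t + 1) u hu x (hcs x List.mem_cons_self))
  | swap x y l =>
    have hx : x ∈ dr A t := hcs x (by simp)
    have hy : y ∈ dr A t := hcs y (by simp)
    have hl : ∀ c ∈ l, c ∈ dr A t := fun c hc => hcs c (by simp [hc])
    rw [ln_cons, ln_cons, ln_cons, ln_cons, ← ln_sub]
    refine hln (t + 2) l hl _ ?_
    have e : ⁅⁅u, y⁆, x⁆ - ⁅⁅u, x⁆, y⁆ = ⁅u, ⁅y, x⁆⁆ := by
      rw [lie_lie, ← lie_skew ⁅u, x⁆ y]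
      abel
    rw [e]
    have h1 : ⁅y, x⁆ ∈ dr A (t + 1) := Submodule.subset_span ⟨y, hy, x, hx, rfl⟩
    exact Submodule.subset_span ⟨u, hu, ⁅y, x⁆, h1, rfl⟩
  | trans p q ih1 ih2 =>
    have h1 := ih1 hcs u hu
    have h2 := ih2 (fun c hc => hcs c (p.mem_iff.2 hc)) u hu
    have h3 := Submodule.add_mem _ h1 h2
    rwa [sub_add_sub_cancel] at h3

end Pool.Agent.ISB.H16
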